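import Pool.Agent.X319.EF.Eff
import Pool.Agent.X319.SY.Final

set_option autoImplicit false
set_option maxHeartbeats 4000000

/-!
The inequalities for the numerators, twists, and asymmetric exponents: arithmetic.
-/

namespace Pool.Agent.X319.EF

open Finset Pool.Agent.W432.PC Pool.Agent.W280.PC Pool.Agent.TH571.PCV Polynomial
open Pool.Agent.X319.DI Pool.Agent.X319.SY Pool.Agent.H916R2

universe u

/-- Both inequalities for all integral shifts with sum one. -/
def Ineqs {ι : Type*} [Fintype ι] {r : ℕ} (N : ℕ) (E : ι → Fin r → ℤ) (a : ℤ) : Prop :=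
  ∀ x : ι → ℤ, ∑ p, x p = 1 →
    (r : ℤ) * (N - 1) ≤ ∑ p, ∑ l, (a * E p l - x p) % (N : ℤ) ∧
    (r : ℤ) * (N - 1) ≤ ∑ p, ∑ l, (-(a * E p l) - x p) % (N : ℤ)

section point

variable {R : Type u} [CommRing R] [IsDomain R] [CharZero R] {n r : ℕ}

lemma sym_ineq_pt (α : Fin n → R) (hα : ∀ i j, i ≠ j → IsUnit (α i - α j))
    (A A' : Fin n → Matrix (Fin r) (Fin r) R)
    (hA' : A' = A ∨ A' = fun j => -(A j).transpose) (N : ℕ) (hN : 0 < N)
    (E : Option (Fin n) → Fin r → ℤ)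
    (hE : ∀ j, HasExponents (A' j) (fun l => (E (some j) l : ℚ) / N))
    (hE' : HasExponents (∑ j, A' j) (fun l => -(E none l : ℚ) / N)) (a : ℤ)
    (p : ℕ) (hp : p.Prime) (hpM : 2 * ∑ x, ∑ l, |E x l| < p)
    (hap : (N : ℤ) ∣ a * p + 1) (𝔪 : Ideal R) [𝔪.IsMaximal] (hpm : (p : R) ∈ 𝔪)
    (hpc : PCurvZeroAt α A 𝔪) (x : Option (Fin n) → ℤ) (hx : ∑ p, x p = 1) :
    (r : ℤ) * (N - 1) ≤ ∑ p, ∑ l, (a * E p l - x p) % (N : ℤ) := by
  have hNq : (N : ℚ) ≠ 0 := by exact_mod_cast hN.ne'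
  have hN0 : (0 : ℤ) < N := by exact_mod_cast hN
  have h1 := pos_of_pt α hα A A' hA' (fun j l => (E (some j) l : ℚ) / N)
    (fun l => -(E none l : ℚ) / N) hE hE' N hN (fun j => E (some j)) (fun l => -E none l)
    (fun j l => by field_simp) (fun l => by push_cast; field_simp) a p hp
    (by
      rw [Fintype.sum_option] at hpM
      simp only [abs_neg]
      linarith) hap 𝔪 hpm hpc (fun j => x (some j))
  rw [Fintype.sum_option] at hx ⊢
  have h2 : ∀ l, (a * -E none l - ∑ j, x (some j)) % (N : ℤ) =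
      N - 1 - (a * E none l - x none) % (N : ℤ) := fun l => by
    rw [← neg_sub_one_emod hN0]
    congr 1
    linear_combination -hx
  simp only [h2, sum_sub_distrib, sum_const, card_univ, Fintype.card_fin, nsmul_eq_mul] at h1
  linarith

theorem ineqs_of_pt (α : Fin n → R) (hα : ∀ i j, i ≠ j → IsUnit (α i - α j))
    (A : Fin n → Matrix (Fin r) (Fin r) R) (N : ℕ) (hN : 0 < N)
    (E : Option (Fin n) → Fin r → ℤ)
    (hE : ∀ j, HasExponents (A j) (fun l => (E (some j) l : ℚ) / N))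
    (hE' : HasExponents (∑ j, A j) (fun l => -(E none l : ℚ) / N)) (a : ℤ)
    (p : ℕ) (hp : p.Prime) (hpM : 2 * ∑ x, ∑ l, |E x l| < p)
    (hap : (N : ℤ) ∣ a * p + 1) (𝔪 : Ideal R) [𝔪.IsMaximal] (hpm : (p : R) ∈ 𝔪)
    (hpc : PCurvZeroAt α A 𝔪) : Ineqs N E a := by
  intro x hx
  refine ⟨sym_ineq_pt α hα A A (Or.inl rfl) N hN E hE hE' a p hp hpM hap 𝔪 hpm hpc x hx, ?_⟩
  have h1 := sym_ineq_pt α hα A (fun j => -(A j).transpose) (Or.inr rfl) N hN
    (fun p l => -E p l) (fun j => ?_) ?_ a p hp (by simp only [abs_neg]; exact hpM) hap 𝔪 hpm hpc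
    x hx
  · refine h1.trans (le_of_eq ?_)
    refine sum_congr rfl fun p _ => sum_congr rfl fun l _ => ?_
    congr 1
    ring
  · have h2 := hasExponents_dual (hE j)
    convert h2 using 2 with l
    push_cast
    ring
  · have h2 := hasExponents_dual hE'
    have h3 : ∑ j, -(A j).transpose = -(∑ j, A j).transpose := by
      rw [Matrix.transpose_sum, sum_neg_distrib]
    rw [h3]
    convert h2 using 2 with l
    push_cast
    ring

end point

section arith

variable {ι : Type*} [Fintype ι] [DecidableEq ι] {r : ℕ}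

/-- The inequalities for real shifts. -/
lemma real_ineq {N : ℕ} (hN : 0 < N) (V : ι → Fin r → ℤ)
    (h : ∀ x : ι → ℤ, ∑ p, x p = 1 → (r : ℤ) * (N - 1) ≤ ∑ p, ∑ l, (V p l - x p) % (N : ℤ))
    (y : ι → ℝ) (hy : 0 < ∑ p, y p) :
    (r : ℝ) * (1 - ∑ p, y p) ≤ ∑ p, ∑ l, Int.fract ((V p l : ℝ) / N - y p) := by
  have hN0 : (0 : ℤ) < N := by exact_mod_cast hN
  have hNr : (0 : ℝ) < N := by exact_mod_cast hN
  let x : ι → ℤ := fun p => ⌈(N : ℝ) * y p⌉
  have hx1 : ∀ p, (N : ℝ) * y p ≤ x p := fun p => Int.le_ceil _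
  have hx2 : ∀ p, (x p : ℝ) < N * y p + 1 := fun p => Int.ceil_lt_add_one _
  set s : ℤ := ∑ p, x p with hs
  have hs1 : 1 ≤ s := by
    have h1 : (0 : ℝ) < (s : ℝ) := by
      rw [hs]
      push_cast
      calc (0 : ℝ) < N * ∑ p, y p := mul_pos hNr hy
        _ = ∑ p, (N : ℝ) * y p := mul_sum _ _ _
        _ ≤ ∑ p, (x p : ℝ) := sum_le_sum fun p _ => hx1 p
    have h2 : 0 < s := by exact_mod_cast h1
    omega
  obtain ⟨p0⟩ : Nonempty ι := by
    by_contra hne
    rw [not_nonempty_iff] at hne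
    simp at hy
  let x' : ι → ℤ := fun p => if p = p0 then x p0 - (s - 1) else x p
  have hx'0 : x' p0 = x p0 - (s - 1) := by simp only [x', if_true]
  have hx'p : ∀ p, p ≠ p0 → x' p = x p := fun p hp => by simp only [x', if_neg hp]
  have hx' : ∑ p, x' p = 1 := by
    have h1 := add_sum_erase univ x (mem_univ p0)
    rw [← add_sum_erase univ x' (mem_univ p0), hx'0,
      sum_congr rfl (fun p hp => hx'p p (ne_of_mem_erase hp))]
    linarith
  have h1 := h x' hx'
  have h2 : ∑ p, ∑ l, (V p l - x' p) % (N : ℤ) ≤ ∑ p, ∑ l, (V p l - x p) % (N : ℤ) +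
      r * (s - 1) := by
    rw [← add_sum_erase univ _ (mem_univ p0),
      ← add_sum_erase univ (fun p => ∑ l, (V p l - x p) % (N : ℤ)) (mem_univ p0)]
    have h3 : ∑ l, (V p0 l - x' p0) % (N : ℤ) ≤ ∑ l, ((V p0 l - x p0) % (N : ℤ) + (s - 1)) := by
      refine sum_le_sum fun l _ => ?_
      refine emod_le_of hN0 ?_ (by have := Int.emod_nonneg (V p0 l - x p0) hN0.ne'; omega)
      rw [hx'0]
      have h5 : V p0 l - (x p0 - (s - 1)) - ((V p0 l - x p0) % (N : ℤ) + (s - 1)) =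
          (V p0 l - x p0) - (V p0 l - x p0) % (N : ℤ) := by ring
      rw [h5]
      exact Int.dvd_self_sub_emod
    rw [sum_add_distrib, sum_const, card_univ, Fintype.card_fin, nsmul_eq_mul] at h3
    have h4 : ∑ p ∈ univ.erase p0, ∑ l, (V p l - x' p) % (N : ℤ) =
        ∑ p ∈ univ.erase p0, ∑ l, (V p l - x p) % (N : ℤ) :=
      sum_congr rfl fun p hp => by rw [hx'p p (ne_of_mem_erase hp)]
    rw [h4]
    linarith
  have h3 : (r : ℤ) * (N - s) ≤ ∑ p, ∑ l, (V p l - x p) % (N : ℤ) := by linarith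
  have h4 : ∀ p l, Int.fract ((V p l : ℝ) / N - y p) =
      (((V p l - x p) % (N : ℤ) : ℤ) : ℝ) / N + ((x p : ℝ) / N - y p) := fun p l => by
    have k1 := Int.emod_add_mul_ediv (V p l - x p) N
    have k2 := Int.emod_nonneg (V p l - x p) hN0.ne'
    have k3 := Int.emod_lt_of_pos (V p l - x p) hN0
    set w := (V p l - x p) % (N : ℤ)
    set z := (V p l - x p) / (N : ℤ)
    have k4 : (w : ℝ) + N * z = V p l - x p := by exact_mod_cast k1
    have k5 : (x p : ℝ) / N - y p = (x p - N * y p) / N := by field_simp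
    have k6 : (0 : ℝ) ≤ (x p - N * y p) / N := div_nonneg (by linarith [hx1 p]) hNr.le
    have k7 : (w : ℝ) + 1 ≤ N := by exact_mod_cast k3
    rw [Int.fract_eq_iff]
    refine ⟨?_, ?_, z, ?_⟩
    · rw [k5]
      exact add_nonneg (div_nonneg (by exact_mod_cast k2) hNr.le) k6
    · rw [k5, ← add_div, div_lt_one hNr]
      linarith [hx2 p]
    · field_simp
      linarith
  have h5 : ∑ p, ∑ l, Int.fract ((V p l : ℝ) / N - y p) =
      ((∑ p, ∑ l, (V p l - x p) % (N : ℤ) : ℤ) : ℝ) / N + r * ((s : ℝ) / N - ∑ p, y p) := by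
    push_cast
    rw [sum_div, hs]
    push_cast
    rw [sum_div, ← sum_sub_distrib, mul_sum, ← sum_add_distrib]
    refine sum_congr rfl fun p _ => ?_
    rw [sum_congr rfl fun l _ => h4 p l, sum_add_distrib, sum_const, card_univ, Fintype.card_fin,
      nsmul_eq_mul, sum_div]
  rw [h5]
  have h6 : (r : ℝ) * (N - s) ≤ ((∑ p, ∑ l, (V p l - x p) % (N : ℤ) : ℤ) : ℝ) := by
    exact_mod_cast h3
  have h7 : (r : ℝ) * (1 - s / N) ≤ ((∑ p, ∑ l, (V p l - x p) % (N : ℤ) : ℤ) : ℝ) / N := by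
    rw [le_div_iff₀ hNr]
    calc (r : ℝ) * (1 - s / N) * N = r * (N - s) := by field_simp
      _ ≤ _ := h6
  linarith

/-- The inequality for the twist. -/
lemma twist_ar {N : ℕ} (hN : 0 < N) (V : ι → Fin r → ℤ)
    (h : ∀ x : ι → ℤ, ∑ p, x p = 1 → (r : ℤ) * (N - 1) ≤ ∑ p, ∑ l, (V p l - x p) % (N : ℤ))
    (C : ι → ℤ) (hC : (N : ℤ) ∣ ∑ p, C p)
    (x0 : ι) (hx0 : ∀ l, ¬ (N : ℤ) ∣ V x0 l - C x0) :
    (r : ℤ) * N ≤ ∑ p, ∑ l, (V p l - C p) % (N : ℤ) := by
  have hN0 : (0 : ℤ) < N := by exact_mod_cast hN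
  let x : ι → ℤ := fun p => if p = x0 then 1 + C x0 - ∑ p, C p else C p
  have hxx : x x0 = 1 + C x0 - ∑ p, C p := by simp only [x, if_true]
  have hxp : ∀ p, p ≠ x0 → x p = C p := fun p hp => by simp only [x, if_neg hp]
  have hx : ∑ p, x p = 1 := by
    have h1 := add_sum_erase univ C (mem_univ x0)
    rw [← add_sum_erase univ x (mem_univ x0), hxx,
      sum_congr rfl (fun p hp => hxp p (ne_of_mem_erase hp))]
    linarith
  have h1 := h x hx
  have h2 : ∑ p, ∑ l, (V p l - x p) % (N : ℤ) =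
      ∑ p, ∑ l, (V p l - C p) % (N : ℤ) - r := by
    rw [← add_sum_erase univ _ (mem_univ x0),
      ← add_sum_erase univ (fun p => ∑ l, (V p l - C p) % (N : ℤ)) (mem_univ x0)]
    have h3 : ∑ l, (V x0 l - x x0) % (N : ℤ) = ∑ l, (V x0 l - C x0) % (N : ℤ) - r := by
      have h4 : ∀ l, (V x0 l - x x0) % (N : ℤ) = (V x0 l - C x0) % (N : ℤ) - 1 := by
        intro l
        rw [← emod_sub_one hN0 (hx0 l), hxx]
        obtain ⟨k, hk⟩ := hC
        have h5 : V x0 l - (1 + C x0 - ∑ p, C p) = (V x0 l - C x0 - 1) + N * k := by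
          rw [hk]; ring
        rw [h5, Int.add_mul_emod_self_left]
      rw [sum_congr rfl fun l _ => h4 l, sum_sub_distrib]
      simp
    rw [h3, sum_congr rfl (g := fun p => ∑ l, (V p l - C p) % (N : ℤ)) (fun p hp => ?_)]
    · ring
    · refine sum_congr rfl fun l _ => ?_
      rw [hxp p (ne_of_mem_erase hp)]
  rw [h2] at h1
  linarith

/-- Both inequalities for the twist. -/
theorem twist_both_ar {N : ℕ} (hN : 0 < N) (E : ι → Fin r → ℤ) (a : ℤ)
    (ha : IsCoprime a (N : ℤ)) (hi : Ineqs N E a) (C : ι → ℤ) (hC : (N : ℤ) ∣ ∑ p, C p)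
    (x0 : ι) (hx0 : ∀ l, ¬ (N : ℤ) ∣ E x0 l - C x0) :
    (r : ℤ) * N ≤ ∑ i : ι × Fin r, (a * (E i.1 i.2 - C i.1)) % (N : ℤ) ∧
    (r : ℤ) * N ≤ ∑ i : ι × Fin r, (-(a * (E i.1 i.2 - C i.1))) % (N : ℤ) := by
  constructor
  · rw [Fintype.sum_prod_type]
    have h1 := twist_ar hN (fun p l => a * E p l) (fun x hx => (hi x hx).1) (fun p => a * C p)
      (by rw [← mul_sum]; exact Dvd.dvd.mul_left hC _) x0 (fun l h => hx0 l
        (ha.symm.dvd_of_dvd_mul_left (by rw [mul_sub]; exact h)))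
    simp only [mul_sub]
    exact h1
  · rw [Fintype.sum_prod_type]
    have h1 := twist_ar hN (fun p l => -(a * E p l)) (fun x hx => (hi x hx).2)
      (fun p => -(a * C p))
      (by rw [sum_neg_distrib, ← mul_sum]; exact (Dvd.dvd.mul_left hC _).neg_right) x0
      (fun l h => hx0 l (ha.symm.dvd_of_dvd_mul_left (by
        have h2 : -(a * E x0 l) - -(a * C x0) = -(a * (E x0 l - C x0)) := by ring
        rw [h2] at h
        exact (dvd_neg).1 h)))
    refine h1.trans (le_of_eq ?_)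
    refine sum_congr rfl fun p _ => sum_congr rfl fun l _ => ?_
    congr 1
    ring

end arith

end Pool.Agent.X319.EF
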