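import Pool.Agent.X319.EF.Arith

set_option autoImplicit false
set_option maxHeartbeats 4000000

/-!
Asymmetric exponents: a class which does not depend on the system.
-/

namespace Pool.Agent.X319.EF

open Finset Pool.Agent.W432.PC Pool.Agent.W280.PC Pool.Agent.TH571.PCV Polynomial
open Pool.Agent.X319.DI Pool.Agent.X319.SY Pool.Agent.H916R2

variable {ι : Type*} [Fintype ι] [DecidableEq ι] {r : ℕ}

/-- The symmetry of the exponents of a twist without cohomology. -/
theorem sym_count_ar (M k : ℕ) (hM : 0 < M) (hk : 0 < k)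
    (E : ι → Fin r → ℤ)
    (hno : ∀ a : ℤ, IsCoprime a ((M * k : ℕ) : ℤ) → Ineqs (M * k) E a)
    (C : ι → ℤ) (hC : ((M * k : ℕ) : ℤ) ∣ ∑ p, C p)
    (x0 : ι) (hx0 : ∀ l, ¬ ((M * k : ℕ) : ℤ) ∣ E x0 l - C x0)
    (μ : ι × Fin r → ℤ) (hμ : ∀ i, E i.1 i.2 - C i.1 = k * μ i)
    (hW : (univ.filter fun i => ¬ (M : ℤ) ∣ μ i).card ≤ 2 * r)
    (hN : M.Prime ∨ ((2 * r : ℕ) : ℝ) * ∑ q ∈ M.primeFactors, (1 : ℝ) / ((q : ℝ) - 1) < 1)
    (t : ZMod M) :
    (univ.filter fun i => ((μ i : ℤ) : ZMod M) = t).card =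
      (univ.filter fun i => ((μ i : ℤ) : ZMod M) = -t).card := by
  classical
  haveI : NeZero M := ⟨hM.ne'⟩
  haveI : NeZero (M * k) := ⟨(Nat.mul_pos hM hk).ne'⟩
  have hM0 : (0 : ℤ) < M := by exact_mod_cast hM
  have hk0 : (0 : ℤ) < k := by exact_mod_cast hk
  let F : ZMod M → ℤ := fun b => ∑ i, ((if ((μ i : ℤ) : ZMod M) = b then 1 else 0) -
    (if ((μ i : ℤ) : ZMod M) = -b then 1 else 0))
  have hF0 : ∀ b, F (-b) = - F b := fun b => by
    simp only [F]
    rw [← sum_neg_distrib]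
    refine sum_congr rfl fun i _ => ?_
    rw [neg_neg]
    ring
  have hFW : ∑ b, |F b| ≤ 2 * ((2 * r : ℕ) : ℤ) := by
    have h1 : ∑ b, |F b| ≤ ∑ i, ∑ b : ZMod M, |((if ((μ i : ℤ) : ZMod M) = b then (1 : ℤ) else 0) -
        (if ((μ i : ℤ) : ZMod M) = -b then 1 else 0))| := by
      rw [sum_comm]
      exact sum_le_sum fun b _ => abs_sum_le_sum_abs _ _
    have h2 : ∀ i, ∑ b : ZMod M, |((if ((μ i : ℤ) : ZMod M) = b then (1 : ℤ) else 0) -
        (if ((μ i : ℤ) : ZMod M) = -b then 1 else 0))| ≤ if ¬ (M : ℤ) ∣ μ i then 2 else 0 := by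
      intro i
      by_cases h : (M : ℤ) ∣ μ i
      · rw [if_neg (not_not.2 h)]
        have h3 : ((μ i : ℤ) : ZMod M) = 0 := (ZMod.intCast_zmod_eq_zero_iff_dvd _ _).2 h
        refine le_of_eq (sum_eq_zero fun b _ => ?_)
        rw [h3]
        by_cases hb : (0 : ZMod M) = b
        · rw [← hb]; simp
        · rw [if_neg hb, if_neg (fun h => hb (by rw [← neg_neg b, ← h, neg_zero]))]
          simp
      · rw [if_pos h]
        calc ∑ b : ZMod M, |((if ((μ i : ℤ) : ZMod M) = b then (1 : ℤ) else 0) -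
              (if ((μ i : ℤ) : ZMod M) = -b then 1 else 0))|
            ≤ ∑ b : ZMod M, ((if ((μ i : ℤ) : ZMod M) = b then (1 : ℤ) else 0) +
              (if -((μ i : ℤ) : ZMod M) = b then 1 else 0)) := by
              refine sum_le_sum fun b _ => ?_
              have h4 : (((μ i : ℤ) : ZMod M) = -b) ↔ (-((μ i : ℤ) : ZMod M) = b) :=
                ⟨fun h => by rw [h, neg_neg], fun h => by rw [← h, neg_neg]⟩
              simp only [h4]
              split_ifs <;> simp
          _ = 2 := by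
              rw [sum_add_distrib, sum_ite_eq, sum_ite_eq]
              simp
    refine h1.trans ((sum_le_sum fun i _ => h2 i).trans ?_)
    rw [← sum_filter, sum_const, nsmul_eq_mul]
    have h3 : (((univ.filter fun i => ¬ (M : ℤ) ∣ μ i).card : ℕ) : ℤ) ≤ ((2 * r : ℕ) : ℤ) := by
      exact_mod_cast hW
    linarith
  have hFs : ∀ a : (ZMod M)ˣ, ∑ b, F b * saw ((a : ZMod M) * b) = 0 := by
    intro a
    obtain ⟨a', ha'⟩ := ZMod.unitsMap_surjective (Dvd.intro k rfl : M ∣ M * k) a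
    set z : ℤ := ((a' : ZMod (M * k)).val : ℤ) with hz
    have hza : ((z : ℤ) : ZMod M) = a := by
      rw [← ha', ZMod.unitsMap_val, hz, Int.cast_natCast, ← ZMod.cast_eq_val]
    have hzc : IsCoprime z ((M * k : ℕ) : ℤ) := by
      rw [isCoprime_comm, ← ZMod.coe_int_isUnit_iff_isCoprime]
      rw [hz, Int.cast_natCast, ZMod.natCast_zmod_val]
      exact a'.isUnit
    obtain ⟨h1, h2⟩ := twist_both_ar (Nat.mul_pos hM hk) E z hzc (hno z hzc) C hC x0 hx0
    have h3 : ∀ w : ℤ, (w * k) % ((M * k : ℕ) : ℤ) = (w % M) * k := fun w => by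
      push_cast
      rw [mul_comm w, mul_comm (M : ℤ), Int.mul_emod_mul_of_pos _ _ hk0, mul_comm]
    have h4 : ∀ i : ι × Fin r, (z * (E i.1 i.2 - C i.1)) % ((M * k : ℕ) : ℤ) =
        ((z * μ i) % M) * k := fun i => by
      rw [← h3, hμ]
      congr 1
      ring
    have h5 : ∀ i : ι × Fin r, (-(z * (E i.1 i.2 - C i.1))) % ((M * k : ℕ) : ℤ) =
        ((-(z * μ i)) % M) * k := fun i => by
      rw [← h3, hμ]
      congr 1
      ring
    simp only [h4, h5, ← sum_mul] at h1 h2
    push_cast at h1 h2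
    have h6 : (r : ℤ) * M ≤ ∑ i, (z * μ i) % M := by
      refine le_of_mul_le_mul_right ?_ hk0
      linarith
    have h7 : (r : ℤ) * M ≤ ∑ i, (-(z * μ i)) % M := by
      refine le_of_mul_le_mul_right ?_ hk0
      linarith
    have h8 : ∀ i, (M : ℤ) ∣ z * μ i ↔ (M : ℤ) ∣ μ i := fun i => by
      constructor
      · intro h
        have h9 : IsCoprime z (M : ℤ) := by
          push_cast at hzc
          exact hzc.of_mul_right_left
        exact h9.symm.dvd_of_dvd_mul_left h
      · intro h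
        exact Dvd.dvd.mul_left h _
    have h9 : ∑ i, (z * μ i) % (M : ℤ) + ∑ i, (-(z * μ i)) % (M : ℤ) =
        ((univ.filter fun i => ¬ (M : ℤ) ∣ μ i).card : ℤ) * M := by
      rw [← sum_add_distrib]
      have h10 : ∀ i, (z * μ i) % (M : ℤ) + (-(z * μ i)) % (M : ℤ) =
          if ¬ (M : ℤ) ∣ μ i then (M : ℤ) else 0 := fun i => by
        rw [emod_add_neg hM0, if_congr (h8 i) rfl rfl]
        split_ifs <;> simp_all
      rw [sum_congr rfl fun i _ => h10 i, ← sum_filter, sum_const, nsmul_eq_mul]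
    have h10 : (((univ.filter fun i => ¬ (M : ℤ) ∣ μ i).card : ℕ) : ℤ) ≤ 2 * r := by
      exact_mod_cast hW
    have h11 : (((univ.filter fun i => ¬ (M : ℤ) ∣ μ i).card : ℕ) : ℤ) * M ≤ 2 * r * M :=
      mul_le_mul_of_nonneg_right h10 hM0.le
    have h12 : ∑ i, (z * μ i) % (M : ℤ) = r * M := by linarith
    have h13 : (((univ.filter fun i => ¬ (M : ℤ) ∣ μ i).card : ℕ) : ℤ) * M = 2 * r * M := by
      linarith
    have h14 : ∑ i, saw (((z * μ i : ℤ)) : ZMod M) = 0 := by
      have h15 : ∀ i, saw (((z * μ i : ℤ)) : ZMod M) =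
          2 * ((z * μ i) % M) - if ¬ (M : ℤ) ∣ μ i then (M : ℤ) else 0 := fun i => by
        rw [saw_intCast, if_congr (h8 i) rfl rfl]
        by_cases h : (M : ℤ) ∣ μ i
        · rw [if_pos h, if_neg (not_not.2 h), Int.emod_eq_zero_of_dvd ((h8 i).2 h)]
          rfl
        · rw [if_neg h, if_pos h]
      rw [sum_congr rfl fun i _ => h15 i, sum_sub_distrib, ← mul_sum, h12, ← sum_filter, sum_const,
        nsmul_eq_mul, h13]
      ring
    -- from the indices to the values
    have h16 : ∑ b, F b * saw ((a : ZMod M) * b) = 2 * ∑ i, saw (((z * μ i : ℤ)) : ZMod M) := by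
      simp only [F]
      simp_rw [sum_mul]
      rw [sum_comm, mul_sum]
      refine sum_congr rfl fun i _ => ?_
      have h17 : ∀ b : ZMod M, (((if ((μ i : ℤ) : ZMod M) = b then (1 : ℤ) else 0) -
          (if ((μ i : ℤ) : ZMod M) = -b then 1 else 0)) * saw ((a : ZMod M) * b)) =
          (if ((μ i : ℤ) : ZMod M) = b then saw ((a : ZMod M) * b) else 0) -
          (if -((μ i : ℤ) : ZMod M) = b then saw ((a : ZMod M) * b) else 0) := by
        intro b
        have h4 : (((μ i : ℤ) : ZMod M) = -b) ↔ (-((μ i : ℤ) : ZMod M) = b) :=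
          ⟨fun h => by rw [h, neg_neg], fun h => by rw [← h, neg_neg]⟩
        simp only [h4]
        split_ifs <;> ring
      rw [sum_congr rfl fun b _ => h17 b, sum_sub_distrib, sum_ite_eq, sum_ite_eq]
      simp only [mem_univ, if_true]
      rw [mul_neg, saw_neg, ← hza]
      push_cast
      ring
    rw [h16, h14, mul_zero]
  have hfin := odd_eq_zero F hF0 (2 * r) hFW hN hFs t
  simp only [F] at hfin
  rw [sum_sub_distrib, sum_boole, sum_boole] at hfin
  have : (((univ.filter fun i => ((μ i : ℤ) : ZMod M) = t).card : ℕ) : ℤ) =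
      ((univ.filter fun i => ((μ i : ℤ) : ZMod M) = -t).card : ℕ) := by linarith
  exact_mod_cast this

/-- Asymmetric exponents. -/
theorem asym_ar (lam : ι → Fin r → ℚ)
    (N : ℕ) (hN : 0 < N) (E : ι → Fin r → ℤ) (hE : ∀ x l, (N : ℚ) * lam x l = E x l)
    (c : ι → ℚ) (hNc : ∀ x, ∃ z : ℤ, (N : ℚ) * c x = z)
    (hc : ∃ z : ℤ, ∑ x, c x = z) (x0 : ι) (hx0 : ∀ l, (lam x0 l - c x0).den ≠ 1)
    (hW : (univ.filter fun i : ι × Fin r =>
      (lam i.1 i.2 - c i.1).den ≠ 1).card ≤ 2 * r)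
    (M : ℕ) (hMd : ∀ x l, ∃ z : ℤ, (M : ℚ) * (lam x l - c x) = z)
    (hMp : M.Prime ∨ 0 < M ∧ ((2 * r : ℕ) : ℝ) * ∑ q ∈ M.primeFactors, (1 : ℝ) / ((q : ℝ) - 1) < 1)
    (t : ℚ)
    (ht : (univ.filter fun i : ι × Fin r => (lam i.1 i.2 - c i.1 - t).den = 1).card ≠
      (univ.filter fun i : ι × Fin r => (lam i.1 i.2 - c i.1 + t).den = 1).card) :
    ∃ a : ℤ, IsCoprime a (N : ℤ) ∧ ¬ Ineqs N E a := by
  classical
  by_contra hcon
  push Not at hcon
  have hM : 0 < M := by
    rcases hMp with h | h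
    · exact h.pos
    · exact h.1
  -- the common divisor
  obtain ⟨g, hg⟩ : ∃ g, g = Nat.gcd M N := ⟨_, rfl⟩
  have hg0 : 0 < g := by rw [hg]; exact Nat.gcd_pos_of_pos_left _ hM
  have hgM : g ∣ M := by rw [hg]; exact Nat.gcd_dvd_left _ _
  have hgN : g ∣ N := by rw [hg]; exact Nat.gcd_dvd_right _ _
  obtain ⟨k, rfl⟩ := hgN
  have hk0 : 0 < k := by
    rcases Nat.eq_zero_or_pos k with h | h
    · rw [h, mul_zero] at hN; omega
    · exact h
  have hgp : g.Prime ∨ ((2 * r : ℕ) : ℝ) * ∑ q ∈ g.primeFactors, (1 : ℝ) / ((q : ℝ) - 1) < 1 := by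
    rcases hMp with h | h
    · rcases (Nat.dvd_prime h).1 hgM with h1 | h1
      · right
        rw [h1]
        simp
      · left
        rw [h1]
        exact h
    · right
      refine lt_of_le_of_lt (mul_le_mul_of_nonneg_left ?_ (Nat.cast_nonneg _)) h.2
      refine sum_le_sum_of_subset_of_nonneg (Nat.primeFactors_mono hgM hM.ne') fun q hq _ => ?_
      have h4 := (Nat.prime_of_mem_primeFactors hq).one_lt
      have h5 : (1 : ℝ) < q := by exact_mod_cast h4
      exact div_nonneg zero_le_one (by linarith)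
  choose C hC using hNc
  choose m hm using hMd
  have hNq : (0 : ℚ) < ((g * k : ℕ) : ℚ) := by exact_mod_cast hN
  have hgq : (0 : ℚ) < g := by exact_mod_cast hg0
  have hkq : (0 : ℚ) < k := by exact_mod_cast hk0
  have hl : ∀ x l, lam x l = (E x l : ℚ) / ((g * k : ℕ) : ℚ) := fun x l => by
    rw [← hE]; field_simp
  have hcc : ∀ x, c x = (C x : ℚ) / ((g * k : ℕ) : ℚ) := fun x => by
    rw [← hC]; field_simp
  -- the numerators of the differences
  let u := Nat.gcdA M (g * k)
  let v := Nat.gcdB M (g * k)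
  have huv : (g : ℚ) = M * u + ((g * k : ℕ) : ℚ) * v := by
    have h1 := Nat.gcd_eq_gcd_ab M (g * k)
    rw [← hg] at h1
    exact_mod_cast h1
  let μ : ι × Fin r → ℤ := fun i =>
    m i.1 i.2 * u + (E i.1 i.2 - C i.1) * v
  have hμ1 : ∀ i : ι × Fin r, (g : ℚ) * (lam i.1 i.2 - c i.1) = μ i := fun i => by
    simp only [μ]
    push_cast
    rw [← hm, ← hE, ← hC]
    rw [huv]
    push_cast
    ring
  have hμ : ∀ i : ι × Fin r, E i.1 i.2 - C i.1 = k * μ i := fun i => by
    have h1 := hμ1 i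
    rw [hl, hcc] at h1
    have h2 : ((E i.1 i.2 - C i.1 : ℤ) : ℚ) = ((k * μ i : ℤ) : ℚ) := by
      push_cast at h1 ⊢
      rw [← h1]
      field_simp
    exact_mod_cast h2
  have hint : ∀ (i : ι × Fin r) (τ : ℤ),
      (lam i.1 i.2 - c i.1 - (τ : ℚ) / g).den = 1 ↔ ((μ i : ℤ) : ZMod g) = τ := fun i τ => by
    rw [den_one_iff, ← sub_eq_zero, ← Int.cast_sub, ZMod.intCast_zmod_eq_zero_iff_dvd]
    constructor
    · rintro ⟨z, hz⟩
      refine ⟨z, ?_⟩
      have h1 : ((μ i - τ : ℤ) : ℚ) = ((g * z : ℤ) : ℚ) := by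
        push_cast
        rw [← hμ1 i, ← hz]
        field_simp
      exact_mod_cast h1
    · rintro ⟨z, hz⟩
      refine ⟨z, ?_⟩
      have h1 : ((μ i - τ : ℤ) : ℚ) = ((g * z : ℤ) : ℚ) := by exact_mod_cast hz
      push_cast at h1
      rw [← hμ1 i] at h1
      field_simp
      linarith
  have hint0 : ∀ i : ι × Fin r,
      (lam i.1 i.2 - c i.1).den = 1 ↔ (g : ℤ) ∣ μ i := fun i => by
    have h1 := hint i 0
    rw [Int.cast_zero, zero_div, sub_zero, Int.cast_zero, ZMod.intCast_zmod_eq_zero_iff_dvd] at h1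
    exact h1
  have hCs : ((g * k : ℕ) : ℤ) ∣ ∑ p, C p := by
    obtain ⟨z, hz⟩ := hc
    refine ⟨z, ?_⟩
    have h1 : ((∑ p, C p : ℤ) : ℚ) = ((((g * k : ℕ) : ℤ) * z : ℤ) : ℚ) := by
      push_cast
      rw [← hz, mul_sum]
      refine sum_congr rfl fun x _ => ?_
      rw [← hC]
      push_cast
      ring
    exact_mod_cast h1
  have hfin := sym_count_ar g k hg0 hk0 E hcon C hCs x0 (fun l h => hx0 l (by
        rw [den_one_iff]
        obtain ⟨z, hz⟩ := h
        refine ⟨z, ?_⟩
        rw [hl, hcc]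
        have h1 : ((E x0 l - C x0 : ℤ) : ℚ) = ((((g * k : ℕ) : ℤ) * z : ℤ) : ℚ) := by
          exact_mod_cast hz
        push_cast at h1 ⊢
        field_simp
        linarith)) μ hμ
    (by
      refine le_trans (le_of_eq ?_) hW
      congr 1
      ext i
      simp only [mem_filter, mem_univ, true_and]
      rw [← hint0 i]) hgp
  by_cases hgt : ∃ τ : ℤ, (g : ℚ) * t = τ
  · obtain ⟨τ, hτ⟩ := hgt
    have ht' : t = (τ : ℚ) / g := by rw [← hτ]; field_simp
    apply ht
    have h1 := hfin (τ : ZMod g)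
    have h2 : (univ.filter fun i : ι × Fin r =>
        (lam i.1 i.2 - c i.1 - t).den = 1) = univ.filter fun i => ((μ i : ℤ) : ZMod g) = τ := by
      ext i
      simp only [mem_filter, mem_univ, true_and]
      rw [← hint i τ, ht']
    have h3 : (univ.filter fun i : ι × Fin r =>
        (lam i.1 i.2 - c i.1 + t).den = 1) = univ.filter fun i => ((μ i : ℤ) : ZMod g) = -τ := by
      ext i
      simp only [mem_filter, mem_univ, true_and]
      rw [← Int.cast_neg, ← hint i (-τ), ht']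
      have h4 : lam i.1 i.2 - c i.1 + (τ : ℚ) / g = lam i.1 i.2 - c i.1 - ((-τ : ℤ) : ℚ) / g := by
        push_cast
        ring
      rw [h4]
    rw [h2, h3]
    exact h1
  · apply ht
    have h2 : (univ.filter fun i : ι × Fin r =>
        (lam i.1 i.2 - c i.1 - t).den = 1) = ∅ := by
      rw [filter_eq_empty_iff]
      intro i _ h
      obtain ⟨z, hz⟩ := (den_one_iff _).1 h
      apply hgt
      refine ⟨μ i - g * z, ?_⟩
      push_cast
      rw [← hμ1 i, ← hz]
      ring
    have h3 : (univ.filter fun i : ι × Fin r =>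
        (lam i.1 i.2 - c i.1 + t).den = 1) = ∅ := by
      rw [filter_eq_empty_iff]
      intro i _ h
      obtain ⟨z, hz⟩ := (den_one_iff _).1 h
      apply hgt
      refine ⟨g * z - μ i, ?_⟩
      push_cast
      rw [← hμ1 i, ← hz]
      ring
    rw [h2, h3]

/-- One exponent of large multiplicity. -/
theorem mult_ne_ar (lam : ι → Fin r → ℚ) (c : ι → ℚ)
    (x1 : ι) (d : ℚ) (m : ℕ) (e : ι → ℕ)
    (hm : m ≤ (univ.filter fun l => (lam x1 l - d).den = 1).card)
    (h2 : ∀ l, (lam x1 l - c x1).den = 1 ∨ (lam x1 l - d).den = 1)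
    (h3 : (2 * (d - c x1)).den ≠ 1)
    (h4 : ∀ x, x ≠ x1 → ∀ q : ℚ, (q - c x).den ≠ 1 →
      (univ.filter fun l => (lam x l - q).den = 1).card ≤ e x)
    (h5 : ∑ x ∈ univ.erase x1, e x < m) :
    (univ.filter fun i : ι × Fin r =>
      (lam i.1 i.2 - c i.1 - (d - c x1)).den = 1).card ≠
      (univ.filter fun i : ι × Fin r =>
        (lam i.1 i.2 - c i.1 + (d - c x1)).den = 1).card := by
  classical
  have hcard : ∀ P : ι → Fin r → Prop, ∀ [∀ x l, Decidable (P x l)],
      (univ.filter fun i : ι × Fin r => P i.1 i.2).card =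
      ∑ x, (univ.filter fun l => P x l).card := by
    intro P _
    rw [card_filter, Fintype.sum_prod_type]
    exact sum_congr rfl fun x _ => (card_filter _ _).symm
  have hs3 : ¬ ∃ z : ℤ, 2 * (d - c x1) = z := fun h => h3 ((den_one_iff _).2 h)
  have h6 : m ≤ (univ.filter fun i : ι × Fin r =>
      (lam i.1 i.2 - c i.1 - (d - c x1)).den = 1).card := by
    rw [hcard (fun x l => (lam x l - c x - (d - c x1)).den = 1)]
    refine le_trans ?_ (single_le_sum (fun _ _ => Nat.zero_le _) (mem_univ x1))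
    refine hm.trans (card_le_card fun l hl => ?_)
    rw [mem_filter] at hl ⊢
    refine ⟨mem_univ _, ?_⟩
    have h7 : lam x1 l - c x1 - (d - c x1) = lam x1 l - d := by ring
    rw [h7]
    exact hl.2
  have h7 : (univ.filter fun i : ι × Fin r =>
      (lam i.1 i.2 - c i.1 + (d - c x1)).den = 1).card ≤ ∑ x ∈ univ.erase x1, e x := by
    rw [hcard (fun x l => (lam x l - c x + (d - c x1)).den = 1),
      ← add_sum_erase univ _ (mem_univ x1)]
    have h8 : (univ.filter fun l => (lam x1 l - c x1 + (d - c x1)).den = 1).card = 0 := by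
      rw [card_eq_zero, filter_eq_empty_iff]
      intro l _ h
      obtain ⟨z, hz⟩ := (den_one_iff _).1 h
      rcases h2 l with h9 | h9
      · obtain ⟨w, hw⟩ := (den_one_iff _).1 h9
        refine hs3 ⟨2 * (z - w), ?_⟩
        push_cast
        rw [← hz, ← hw]
        ring
      · obtain ⟨w, hw⟩ := (den_one_iff _).1 h9
        refine hs3 ⟨z - w, ?_⟩
        push_cast
        rw [← hz, ← hw]
        ring
    rw [h8, zero_add]
    refine sum_le_sum fun x hx => ?_
    have h9 := h4 x (ne_of_mem_erase hx) (c x - (d - c x1)) (fun h => by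
      obtain ⟨z, hz⟩ := (den_one_iff _).1 h
      refine hs3 ⟨-2 * z, ?_⟩
      push_cast
      rw [← hz]
      ring)
    refine le_trans (le_of_eq ?_) h9
    congr 1
    ext l
    simp only [mem_filter, mem_univ, true_and]
    have h10 : lam x l - c x + (d - c x1) = lam x l - (c x - (d - c x1)) := by ring
    rw [h10]
  omega

end Pool.Agent.X319.EF
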