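import Pool.Agent.X319.DI.Core

set_option autoImplicit false
set_option maxHeartbeats 4000000

/-!
The inequalities at a single closed point, with an explicit bound for the characteristic.
-/

namespace Pool.Agent.X319.EF

open Finset Pool.Agent.W432.PC Pool.Agent.W280.PC Pool.Agent.TH571.PCV Polynomial
open Pool.Agent.X319.DI

universe u

variable {R : Type u} [CommRing R] [IsDomain R] [CharZero R] {n r : ℕ}

/-- no violation at a point with vanishing `p`-curvature -/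
lemma no_violation (α : Fin n → R) (hα : ∀ i j, i ≠ j → IsUnit (α i - α j))
    (A A' : Fin n → Matrix (Fin r) (Fin r) R)
    (hA' : A' = A ∨ A' = fun j => -(A j).transpose)
    (lam : Fin n → Fin r → ℚ) (phi : Fin r → ℚ)
    (hlam : ∀ j, HasExponents (A' j) (lam j)) (hphi : HasExponents (∑ j, A' j) phi)
    (N : ℕ) (hN : 0 < N) (m : Fin n → Fin r → ℤ) (m' : Fin r → ℤ)
    (hm : ∀ j l, (N : ℚ) * lam j l = m j l) (hm' : ∀ l, (N : ℚ) * phi l = m' l) (a : ℤ)
    (hsort : ∀ j l l', l ≤ l' → lexLE a (lam j l) (lam j l'))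
    (hsort' : ∀ l l', l ≤ l' → lexLE a (phi l) (phi l'))
    (κ : Fin n → Fin r) (s : Fin r) (q : ℤ)
    (hq : ∑ j, ∑ l, wt a (lam j l) - ∑ l, wt a (phi l) + ∑ j, ((κ j : ℕ) : ℚ) =
      q * r + (s : ℕ))
    (p : ℕ) (hp : p.Prime) (hpM : 2 * (∑ j, ∑ l, |m j l| + ∑ l, |m' l|) < p)
    (hap : (N : ℤ) ∣ a * p + 1) (𝔪 : Ideal R) [𝔪.IsMaximal] (hpm : (p : R) ∈ 𝔪)
    (hpc : PCurvZeroAt α A 𝔪)
    (hwN : ∃ z : ℤ, (N : ℚ) * (∑ j, wt a (lam j (κ j)) - (q + wt a (phi s))) = z) :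
    ∑ j, wt a (lam j (κ j)) ≤ q + wt a (phi s) := by
  classical
  by_contra hcon
  push Not at hcon
  set M : ℤ := ∑ j, ∑ l, |m j l| + ∑ l, |m' l| with hMdef
  have hM : ∀ j l, |m j l| ≤ M := by
    intro j l
    have h1 : |m j l| ≤ ∑ l, |m j l| :=
      Finset.single_le_sum (f := fun l => |m j l|) (fun _ _ => abs_nonneg _) (Finset.mem_univ l)
    have h2 : ∑ l, |m j l| ≤ ∑ j, ∑ l, |m j l| :=
      Finset.single_le_sum (f := fun j => ∑ l, |m j l|)
        (fun _ _ => Finset.sum_nonneg fun _ _ => abs_nonneg _) (Finset.mem_univ j)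
    have h3 : 0 ≤ ∑ l, |m' l| := Finset.sum_nonneg fun _ _ => abs_nonneg _
    simp only [M]; linarith
  have hM' : ∀ l, |m' l| ≤ M := by
    intro l
    have h1 : |m' l| ≤ ∑ l, |m' l| :=
      Finset.single_le_sum (f := fun l => |m' l|) (fun _ _ => abs_nonneg _) (Finset.mem_univ l)
    have h3 : 0 ≤ ∑ j, ∑ l, |m j l| :=
      Finset.sum_nonneg fun _ _ => Finset.sum_nonneg fun _ _ => abs_nonneg _
    simp only [M]; linarith
  have hM0 : 0 ≤ M := (abs_nonneg _).trans (hM' s)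
  have : Fact p.Prime := ⟨hp⟩
  obtain ⟨K, iF, iA, iC, φ, h1, h2, h3⟩ := geometric_point' hA' hα hp hpm hpc
  obtain ⟨hh, D, W, k1, k2, k3, k4, k5, k6⟩ := weyl_point φ α A' h2 h3 hN hap hlam hphi hm hm' hM
    hM' hpM κ s q hsort hsort' hq
  choose Z hZ using k6
  have hPd : (∏ j, (X - C (φ (α j))) ^ hh j : K[X]).natDegree = ∑ j, hh j :=
    natDegree_prod_pow (α := fun j => φ (α j)) hh
  have hP0 : (∏ j, (X - C (φ (α j))) ^ hh j : K[X]) ≠ 0 :=
    Finset.prod_ne_zero_iff.mpr fun j _ => pow_ne_zero _ (X_sub_C_ne_zero _)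
  obtain ⟨i₀, hi₀⟩ := Function.ne_iff.mp k3
  have hZ0 : Z i₀ ≠ 0 := fun h => hi₀ (by rw [hZ i₀, h, mul_zero]; rfl)
  have hdeg : ∑ j, (hh j : ℤ) ≤ D := by
    have h4 := k5 i₀
    rw [hZ i₀, natDegree_mul hP0 hZ0, hPd] at h4
    push_cast at h4
    have h5 : (0 : ℤ) ≤ (Z i₀).natDegree := Int.natCast_nonneg _
    linarith
  have hdegq : (∑ j, (hh j : ℚ)) ≤ D := by exact_mod_cast hdeg
  rw [k2] at hdegq
  simp only [k1, Finset.sum_add_distrib, ← Finset.mul_sum] at hdegq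
  obtain ⟨z, hz⟩ := hwN
  have hNq : (0 : ℚ) < N := by exact_mod_cast hN
  have hz0 : 0 < z := by
    have h5 : (0 : ℚ) < z := by
      rw [← hz]
      exact mul_pos hNq (by linarith)
    exact_mod_cast h5
  have hz1 : (1 : ℚ) ≤ z := by exact_mod_cast hz0
  have hpq : (0 : ℚ) < p := by exact_mod_cast hp.pos
  have h6 : (p : ℚ) * z ≤ m' s - ∑ j, (m j (κ j) : ℚ) := by
    have h7 : (N : ℚ) * (phi s - ∑ j, lam j (κ j)) = m' s - ∑ j, (m j (κ j) : ℚ) := by
      rw [mul_sub, hm', mul_sum]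
      congr 1
      exact sum_congr rfl fun j _ => hm _ _
    rw [← h7, ← hz]
    have h8 : (p : ℚ) * (∑ j, wt a (lam j (κ j)) - (q + wt a (phi s))) ≤
        phi s - ∑ j, lam j (κ j) := by linarith
    calc (p : ℚ) * ((N : ℚ) * (∑ j, wt a (lam j (κ j)) - (q + wt a (phi s))))
        = (N : ℚ) * ((p : ℚ) * (∑ j, wt a (lam j (κ j)) - (q + wt a (phi s)))) := by ring
      _ ≤ _ := mul_le_mul_of_nonneg_left h8 hNq.le
  have h9 : (m' s : ℤ) - ∑ j, m j (κ j) ≤ M := by
    have h10 : m' s ≤ ∑ l, |m' l| := (le_abs_self _).trans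
      (Finset.single_le_sum (f := fun l => |m' l|) (fun _ _ => abs_nonneg _) (Finset.mem_univ s))
    have h11 : -∑ j, m j (κ j) ≤ ∑ j, ∑ l, |m j l| := by
      rw [← sum_neg_distrib]
      refine sum_le_sum fun j _ => (neg_le_abs _).trans
        (Finset.single_le_sum (f := fun l => |m j l|) (fun _ _ => abs_nonneg _)
          (Finset.mem_univ (κ j)))
    simp only [M]
    linarith
  have h12 : (p : ℚ) ≤ M := by
    have h13 : ((m' s - ∑ j, m j (κ j) : ℤ) : ℚ) ≤ M := by exact_mod_cast h9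
    push_cast at h13
    nlinarith
  have h14 : (p : ℤ) ≤ M := by exact_mod_cast h12
  omega

/-- The degree inequality at a point with vanishing `p`-curvature. -/
theorem pos_of_pt (α : Fin n → R) (hα : ∀ i j, i ≠ j → IsUnit (α i - α j))
    (A A' : Fin n → Matrix (Fin r) (Fin r) R)
    (hA' : A' = A ∨ A' = fun j => -(A j).transpose)
    (lam : Fin n → Fin r → ℚ) (phi : Fin r → ℚ)
    (hlam : ∀ j, HasExponents (A' j) (lam j)) (hphi : HasExponents (∑ j, A' j) phi)
    (N : ℕ) (hN : 0 < N) (e : Fin n → Fin r → ℤ) (e' : Fin r → ℤ)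
    (he : ∀ j l, (N : ℚ) * lam j l = e j l) (he' : ∀ l, (N : ℚ) * phi l = e' l)
    (a : ℤ) (p : ℕ) (hp : p.Prime) (hpM : 2 * (∑ j, ∑ l, |e j l| + ∑ l, |e' l|) < p)
    (hap : (N : ℤ) ∣ a * p + 1) (𝔪 : Ideal R) [𝔪.IsMaximal] (hpm : (p : R) ∈ 𝔪)
    (hpc : PCurvZeroAt α A 𝔪) (x : Fin n → ℤ) :
    ∑ l, (a * e' l - ∑ j, x j) % (N : ℤ) ≤ ∑ j, ∑ l, (a * e j l - x j) % (N : ℤ) := by
  have hN0 : (0 : ℤ) < N := by exact_mod_cast hN
  have hNq : (0 : ℚ) < N := by exact_mod_cast hN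
  choose σ hσ using fun j => exists_sorted a (lam j)
  obtain ⟨τ, hτ⟩ := exists_sorted a phi
  have hmono : ∀ {x y : ℚ} {u v : ℤ}, (N : ℚ) * x = u → (N : ℚ) * y = v → lexLE a x y →
      wI N a u ≤ wI N a v := by
    intro x y u v hx hy hxy
    have h1 : wt a x ≤ wt a y := by
      rcases hxy with h | h
      · exact h.le
      · exact h.1.le
    have h2 := mul_le_mul_of_nonneg_left h1 hNq.le
    rw [wt_wI hN hx, wt_wI hN hy] at h2
    exact_mod_cast h2
  -- the degree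
  have htr : ∑ j, ∑ l, e j l = ∑ l, e' l := by
    have h1 := trace_eq hlam hphi
    have h2 : (N : ℚ) * ∑ j, ∑ l, lam j l = (N : ℚ) * ∑ l, phi l := by rw [h1]
    rw [Finset.mul_sum, Finset.mul_sum] at h2
    simp only [Finset.mul_sum, he, he'] at h2
    exact_mod_cast h2
  have hdvd : (N : ℤ) ∣ ∑ j, ∑ l, wI N a (e j l) - ∑ l, wI N a (e' l) := by
    have h1 : ∑ j, ∑ l, wI N a (e j l) - ∑ l, wI N a (e' l) =
        ∑ j, ∑ l, (wI N a (e j l) - a * e j l) - ∑ l, (wI N a (e' l) - a * e' l) := by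
      simp only [Finset.sum_sub_distrib, ← Finset.mul_sum, htr]
      ring
    rw [h1]
    exact dvd_sub (Finset.dvd_sum fun j _ => Finset.dvd_sum fun l _ => wI_mod a _)
      (Finset.dvd_sum fun l _ => wI_mod a _)
  obtain ⟨m, hm⟩ := hdvd
  rw [mul_comm] at hm
  have hperm : ∀ j, ∑ l, wI N a (e j (σ j l)) = ∑ l, wI N a (e j l) := fun j =>
    Equiv.sum_comp (σ j) (fun l => wI N a (e j l))
  have hperm' : ∑ l, wI N a (e' (τ l)) = ∑ l, wI N a (e' l) :=
    Equiv.sum_comp τ (fun l => wI N a (e' l))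
  have hpos := pos_of_ineq hN (fun j l => wI N a (e j (σ j l))) (fun l => wI N a (e' (τ l)))
    (fun j l l' h => hmono (he j _) (he j _) (hσ j l l' h))
    (fun l l' h => hmono (he' _) (he' _) (hτ l l' h))
    (fun j l => wI_nonneg hN a _) (fun j l => wI_le hN a _) (fun l => wI_nonneg hN a _)
    (fun l => wI_le hN a _) m (by simp only [hperm, hperm']; exact hm) ?_ x
  · have hmod : ∀ y z : ℤ, (wI N a y - z) % (N : ℤ) = (a * y - z) % (N : ℤ) := by
      intro y z
      refine Int.ModEq.symm (Int.modEq_iff_dvd.2 ?_)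
      have h1 := wI_mod (D := N) a y
      have h2 : wI N a y - z - (a * y - z) = wI N a y - a * y := by ring
      rw [h2]
      exact h1
    simp only [hmod] at hpos
    have h1 : ∑ l, (a * e' (τ l) - ∑ j, x j) % (N : ℤ) = ∑ l, (a * e' l - ∑ j, x j) % (N : ℤ) :=
      Equiv.sum_comp τ (fun l => (a * e' l - ∑ j, x j) % (N : ℤ))
    have h2 : ∀ j, ∑ l, (a * e j (σ j l) - x j) % (N : ℤ) = ∑ l, (a * e j l - x j) % (N : ℤ) :=
      fun j => Equiv.sum_comp (σ j) (fun l => (a * e j l - x j) % (N : ℤ))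
    rw [h1, Finset.sum_congr rfl fun j _ => h2 j] at hpos
    exact hpos
  · intro q κ s hq
    by_contra hcon
    push Not at hcon
    have hw : ∀ j l, wt a (lam j l) = (wI N a (e j l) : ℚ) / N := fun j l => by
      rw [← wt_wI hN (he j l)]; field_simp
    have hw' : ∀ l, wt a (phi l) = (wI N a (e' l) : ℚ) / N := fun l => by
      rw [← wt_wI hN (he' l)]; field_simp
    have hq' : ∑ j, ∑ l, wt a (lam j (σ j l)) - ∑ l, wt a (phi (τ l)) + ∑ j, ((κ j : ℕ) : ℚ) =
        q * r + (s : ℕ) := by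
      have h1 : ∀ j, ∑ l, wt a (lam j (σ j l)) = ∑ l, wt a (lam j l) := fun j =>
        Equiv.sum_comp (σ j) (fun l => wt a (lam j l))
      have h2 : ∑ l, wt a (phi (τ l)) = ∑ l, wt a (phi l) :=
        Equiv.sum_comp τ (fun l => wt a (phi l))
      rw [Finset.sum_congr rfl (fun j _ => h1 j), h2]
      simp only [hw, hw']
      have h3 := congrArg (fun x : ℤ => (x : ℚ)) hm
      have h4 := congrArg (fun x : ℤ => (x : ℚ)) hq
      push_cast at h3 h4
      simp only [← Finset.sum_div]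
      rw [← sub_div, h3]
      have h5 : (m : ℚ) * N / N = m := by field_simp
      rw [h5]
      linarith
    have hlt : q + wt a (phi (τ s)) < ∑ j, wt a (lam j (σ j (κ j))) := by
      simp only [hw, hw']
      rw [← Finset.sum_div, lt_div_iff₀ hNq]
      have h3 : ((q * N + wI N a (e' (τ s)) : ℤ) : ℚ) <
          ((∑ j, wI N a (e j (σ j (κ j))) : ℤ) : ℚ) := by
        exact_mod_cast hcon
      push_cast at h3
      calc ((q : ℚ) + (wI N a (e' (τ s)) : ℚ) / N) * N = q * N + wI N a (e' (τ s)) := by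
            field_simp
        _ < _ := h3
    have hpM' : 2 * (∑ j, ∑ l, |e j (σ j l)| + ∑ l, |e' (τ l)|) < p := by
      have h1 : ∀ j, ∑ l, |e j (σ j l)| = ∑ l, |e j l| := fun j =>
        Equiv.sum_comp (σ j) (fun l => |e j l|)
      have h2 : ∑ l, |e' (τ l)| = ∑ l, |e' l| := Equiv.sum_comp τ (fun l => |e' l|)
      rw [Finset.sum_congr rfl (fun j _ => h1 j), h2]
      exact hpM
    have hfin := no_violation α hα A A' hA' (fun j l => lam j (σ j l))
      (fun l => phi (τ l)) (fun j => hasExponents_perm (hlam j) (σ j))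
      (hasExponents_perm hphi τ) N hN (fun j l => e j (σ j l)) (fun l => e' (τ l))
      (fun j l => he j _) (fun l => he' _) a hσ hτ κ s q hq' p hp hpM' hap 𝔪 hpm hpc
      ⟨∑ j, wI N a (e j (σ j (κ j))) - (q * N + wI N a (e' (τ s))), by
        simp only [hw, hw']
        push_cast
        rw [← Finset.sum_div]
        field_simp⟩
    linarith

end Pool.Agent.X319.EF
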